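import Pool.Agent.MWGX.StmtsB

/-!
# Row MC3 of block MWGX (twin of `Pool.Agent.MWGQ.H25.mc3`)
-/

set_option autoImplicit false

namespace Pool.Agent.MWGX.H33

open Pool.Agent.Helper14_MV Pool.Agent.Helper2_MV
open Pool.Agent.MWK (pre)
open Pool.Agent.MWF (gaml)
open Pool.Agent.MWGN (nn Nm WC WT Tau Ns nl sg)
open Pool.Agent.MWGQ (pw Gn E0 A0 P0 bd kr krl Rs)
open Pool.Agent.MWGR (X It Kaba F1 Dm Ec Es Ea Al0 Rh FE)

theorem ghc_pin {g u : ℕ → List ℕ} {N i c : ℕ} (hi : i < N) (hc : c ∈ g i) : c ∈ ghc g u N := by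
  rw [ghc]
  refine List.mem_append_left _ (List.mem_flatMap.2 ⟨i, List.mem_range.2 hi, ?_⟩)
  exact List.mem_append_right _ hc

theorem mem_ghc {g u : ℕ → List ℕ} {N c : ℕ} (hc : c ∈ ghc g u N) :
    (∃ i < N, c ∈ g i) ∨ (∃ i ≤ N, c ∈ u i) := by
  rw [ghc] at hc
  rcases List.mem_append.1 hc with hc | hc
  · obtain ⟨i, hi, hc⟩ := List.mem_flatMap.1 hc
    have hi := List.mem_range.1 hi
    rcases List.mem_append.1 hc with hc | hc
    · exact Or.inr ⟨i, hi.le, hc⟩
    · exact Or.inl ⟨i, hi, hc⟩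
  · exact Or.inr ⟨N, le_refl _, hc⟩

theorem ghc_succ (g u : ℕ → List ℕ) (N : ℕ) :
    ghc g u (N + 1) = ghc g u N ++ (g N ++ u (N + 1)) := by
  rw [ghc, ghc, List.range_succ, List.flatMap_append]
  simp

theorem ghc_cnt (g u : ℕ → List ℕ) (c : ℕ) : ∀ N i : ℕ, i ≤ N →
    (u i).count c ≤ (ghc g u N).count c := by
  intro N
  induction N with
  | zero =>
    intro i hi
    have e : i = 0 := by omega
    subst e
    simp [ghc]
  | succ N ih =>
    intro i hi
    rw [ghc_succ, List.count_append, List.count_append]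
    rcases Nat.eq_or_lt_of_le hi with h | h
    · rw [h]
      omega
    · have := ih i (by omega)
      omega

/-- the names of level 1 with `L m` and `L (m+1)` exchanged -/
def sw (m : ℕ) : Nm := { N1 with
  L := fun i => if i = m then N1.L (m + 1) else if i = m + 1 then N1.L m else N1.L i }

theorem sw_m (m : ℕ) : (sw m).L m = N1.L (m + 1) := by simp [sw]
theorem sw_m1 (m : ℕ) : (sw m).L (m + 1) = N1.L m := by simp [sw]
theorem sw_lt {m i : ℕ} (h : i < m) : (sw m).L i = N1.L i := by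
  have h1 : i ≠ m := by omega
  have h2 : i ≠ m + 1 := by omega
  simp [sw, h1, h2]

theorem sw_all {m : ℕ} {Q : ℕ → Prop} (h : ∀ i ≤ m + 1, Q (N1.L i)) :
    ∀ i ≤ m + 1, Q ((sw m).L i) := by
  intro i hi
  rcases Nat.lt_or_ge i m with h1 | h1
  · rw [sw_lt h1]
    exact h i hi
  · rcases Nat.eq_or_lt_of_le h1 with h2 | h2
    · rw [← h2, sw_m]
      exact h (m + 1) (le_refl _)
    · have h3 : i = m + 1 := by omega
      rw [h3, sw_m1]
      exact h m (by omega)

theorem wc_sw {m : ℕ} {w : List ℕ} (h : WC N1 m m w) : WC (sw m) m m w where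
  sa := h.sa
  sb := h.sb
  ob := h.ob
  x2 := h.x2
  y2 := h.y2
  xa := h.xa
  ya := h.ya
  xb := h.xb
  yb := h.yb
  l2 := sw_all (Q := fun l => 2 ≤ w.count l) h.l2
  l0 := sw_all (Q := fun l => nn w l N1.a = 0) h.l0
  lb := sw_all (Q := fun l => nn w l N1.b = 1) h.lb
  c2 := h.c2
  c0 := h.c0
  cb := h.cb
  xl := sw_all (Q := fun l => nn w N1.x l = w.count N1.x) h.xl
  yl := sw_all (Q := fun l => nn w N1.y l = 1) h.yl
  cl0 := by
    intro i hi j hj
    rw [sw_lt (by omega)]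
    exact h.cl0 i hi j hj
  cl1 := by
    intro i hi j hij hj
    rcases Nat.lt_or_ge j m with h1 | h1
    · rw [sw_lt h1]
      exact h.cl1 i hi j hij hj
    · rcases Nat.eq_or_lt_of_le h1 with h2 | h2
      · rw [← h2, sw_m]
        exact h.cl1 i hi (m + 1) (by omega) (le_refl _)
      · have h3 : j = m + 1 := by omega
        rw [h3, sw_m1]
        exact h.cl1 i hi m hi (by omega)

theorem mc3 (fg2 : Fg2Stmt) (cvg : CvgStmt) (mpg : MpgStmt) (hzg : HzgStmt) : Mc3Stmt := by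
  intro n δ hn τ m hτ o f p q hK ⟨h0, h1⟩
  obtain ⟨P, F, H, g, u, hw, hfac, hu, H1, H2, hH⟩ := fg2 n hn τ m hτ f o
  have hw1 := hw true
  simp only [if_true] at hw1
  rw [hw1] at hK
  generalize hE : gL n 1 (f 6) (f (N1.L m)) (f (N1.L (m + 1))) = E at hK
  generalize hwd : p ++ (P ++ (E ++ (F ++ (f (N1.L m) ++
      (ghc g u (m + 3) ++ (f (N1.L (m + 1)) ++ H)))))) ++ q = w at hK
  have hwe : w = (p ++ P) ++ (E ++ (F ++ (f (N1.L m) ++
      (ghc g u (m + 3) ++ (f (N1.L (m + 1)) ++ (H ++ q)))))) := by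
    rw [← hwd]; simp
  have hEA : ∀ d ∈ f (N1.L m), d ∈ E := by
    intro d hd
    rw [← hE, gL]
    simp [hd]
  have hEB : ∀ d ∈ f (N1.L (m + 1)), d ∈ E := by
    intro d hd
    rw [← hE, gL]
    simp [hd]
  -- the letters of `E`
  have hE2 : ∀ d ∈ E, 2 ≤ w.count d := by
    intro d hd
    have hEc : 0 < E.count d := List.count_pos_iff.2 hd
    rw [hwe]
    simp only [List.count_append]
    by_cases h3 : d ∈ f (N1.L m)
    · have h4 : 0 < (f (N1.L m)).count d := List.count_pos_iff.2 h3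
      omega
    by_cases h4 : d ∈ f (N1.L (m + 1))
    · have h5 : 0 < (f (N1.L (m + 1))).count d := List.count_pos_iff.2 h4
      omega
    have h5 : 2 ≤ E.count d := by
      rw [← hE, gL] at hEc ⊢
      have e1 : (f (N1.L m)).count d = 0 := List.count_eq_zero.2 h3
      have e2 : (f (N1.L (m + 1))).count d = 0 := List.count_eq_zero.2 h4
      simp only [List.count_append, count_pw, e1, e2] at hEc ⊢
      have h6 : 0 < (f 6).count d := by
        rcases Nat.eq_zero_or_pos ((f 6).count d) with h7 | h7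
        · rw [h7] at hEc
          simp at hEc
        · exact h7
      have h8 : 2 * 1 ≤ n * (f 6).count d := Nat.mul_le_mul hn h6
      omega
    omega
  -- the letters of `G`
  have hpin : ∀ i < m + 3, ∀ d ∈ g i, d ∈ H ++ q := by
    intro i hi d hd
    obtain ⟨U, V, hUV⟩ := hfac i hi
    rw [hUV]
    simp [hd]
  have hcon : ∀ i ≤ m + 3, ∀ d ∈ u i, 2 ≤ (ghc g u (m + 3)).count d := by
    intro i hi d hd
    exact (hu i hi d hd).trans (ghc_cnt g u d (m + 3) i hi)
  have hG : ∀ d ∈ ghc g u (m + 3), 2 ≤ w.count d := by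
    intro d hd
    have h3 : 0 < (ghc g u (m + 3)).count d := List.count_pos_iff.2 hd
    rcases mem_ghc hd with ⟨i, hi, h4⟩ | ⟨i, hi, h4⟩
    · have h5 : 0 < (H ++ q).count d := List.count_pos_iff.2 (hpin i hi d h4)
      rw [hwe]
      simp only [List.count_append] at h5 ⊢
      omega
    · have h5 := hcon i hi d h4
      rw [hwe]
      simp only [List.count_append]
      omega
  obtain ⟨hK0, -⟩ := hK
  -- a factor of `H` which contains both lights
  have hzz : ∀ K U V : List ℕ, H ++ q = U ++ (K ++ V) → N1.L m ∈ K → N1.L (m + 1) ∈ K →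
      (∀ d ∈ K, d ∈ ghc g u (m + 3)) → False := by
    intro K U V hKe hz hz' hKG
    obtain ⟨h3, h4⟩ := hzg m (p ++ P) E F (f (N1.L m)) (ghc g u (m + 3)) (f (N1.L (m + 1)))
      (H ++ q) U K V w hwe hG hE2 hEA hEB hK0.c1 hK0.c2 h0 h1 hKe hz hz'
    exact h4 (hKG _ h3)
  have hpair : ∀ i < m + 3, ¬ (N1.L m ∈ g i ∧ N1.L (m + 1) ∈ g i) := by
    rintro i hi ⟨h3, h4⟩
    obtain ⟨U, V, hUV⟩ := hfac i hi
    exact hzz (g i) U (V ++ q) (by rw [hUV]; simp) h3 h4 (fun d hd => ghc_pin hi hd)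
  -- the last three pins
  have hlast : ∀ k k' : ℕ, m ≤ k → k < m + 3 → m ≤ k' → k' < m + 3 → N1.L m ∈ g k →
      N1.L (m + 1) ∈ g k' → False := by
    intro k k' hk1 hk2 hk1' hk2' h3 h4
    have h5 : H ++ q = H1 ++ ((g m ++ (g (m + 1) ++ g (m + 2))) ++ (H2 ++ q)) := by
      rw [hH]; simp
    have hmem : ∀ (j : ℕ), m ≤ j → j < m + 3 → ∀ d ∈ g j,
        d ∈ g m ++ (g (m + 1) ++ g (m + 2)) := by
      intro j hj1 hj2 d hd
      rcases Nat.eq_or_lt_of_le hj1 with e | hlt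
      · rw [← e] at hd
        exact List.mem_append_left _ hd
      rcases Nat.eq_or_lt_of_le (Nat.succ_le_of_lt hlt) with e | hlt2
      · rw [← e] at hd
        exact List.mem_append_right _ (List.mem_append_left _ hd)
      · have e : j = m + 2 := by omega
        rw [e] at hd
        exact List.mem_append_right _ (List.mem_append_right _ hd)
    refine hzz _ H1 (H2 ++ q) h5 (hmem k hk1 hk2 _ h3) (hmem k' hk1' hk2' _ h4) ?_
    intro d hd
    rcases List.mem_append.1 hd with hd | hd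
    · exact ghc_pin (by omega) hd
    rcases List.mem_append.1 hd with hd | hd
    · exact ghc_pin (by omega) hd
    · exact ghc_pin (by omega) hd
  obtain ⟨-, -, hL, -⟩ := mpg N1 m m (by omega) (p ++ P) E F (f (N1.L m)) (ghc g u (m + 3))
    (f (N1.L (m + 1))) (H ++ q) w hwe hG hE2 hEA hEB hK0.c1 h0 h1
  have hm : N1.L m ∈ ghc g u (m + 3) :=
    List.count_pos_iff.1 (by rw [(hL m (by omega)).2.2.2.2.2.1]; exact Nat.one_pos)
  have hne : N1.L m ≠ N1.L (m + 1) := by
    show 8 + 6 * m ≠ 8 + 6 * (m + 1)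
    omega
  rcases MWK.pre_total hm hne with h3 | h3
  · have h4 := cvg N1 m m (le_refl _) (by omega) (p ++ P) E F (f (N1.L m)) (ghc g u (m + 3))
      (f (N1.L (m + 1))) (H ++ q) w hwe hG hE2 hEA hEB hK0.c1 h0 h1 (m + 3) g u rfl hpin hcon
      (fun _ => hpair) (fun _ => h3)
    obtain ⟨k, hk1, hk2, hk3, hk4⟩ := h4 m (by omega)
    obtain ⟨k', hk1', hk2', hk3', hk4'⟩ := h4 (m + 1) (by omega)
    exact hlast k k' hk3 hk1 (by omega) hk1' hk2 hk2'
  · have h4 := cvg (sw m) m m (le_refl _) (by omega) (p ++ P) E F (f (N1.L m))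
      (ghc g u (m + 3)) (f (N1.L (m + 1))) (H ++ q) w hwe hG hE2 hEA hEB (wc_sw hK0.c1) h0 h1
      (m + 3) g u rfl hpin hcon
      (fun _ i hi => by rw [sw_m, sw_m1]; exact fun h5 => hpair i hi ⟨h5.2, h5.1⟩)
      (fun _ => by rw [sw_m, sw_m1]; exact h3)
    obtain ⟨k, hk1, hk2, hk3, hk4⟩ := h4 m (by omega)
    obtain ⟨k', hk1', hk2', hk3', hk4'⟩ := h4 (m + 1) (by omega)
    rw [sw_m] at hk2
    rw [sw_m1] at hk2'
    exact hlast k' k (by omega) hk1' hk3 hk1 hk2' hk2

end Pool.Agent.MWGX.H33
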