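import Pool.Agent.MWGX.StmtsA

/-!
# Row PN4 of block MWGX: the fourth pentagon
-/

set_option autoImplicit false

namespace Pool.Agent.MWGX.H33

open Pool.Agent.Helper14_MV Pool.Agent.Helper2_MV
open Pool.Agent.MWK (pre)
open Pool.Agent.MWF (gaml)
open Pool.Agent.MWGN (nn)
open Pool.Agent.MWGQ (pw Gn E0 A0 P0)
open Pool.Agent.MWGR (X It Kaba F1 Dm Ec Es Ea Al0 Rh FE)

theorem lb_mono {g : ℕ} {w w' : List ℕ} (h1 : nn w 0 1 ≡ nn w' 0 1 [MOD g])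
    (h2 : nn w 0 2 ≡ nn w' 0 2 [MOD g]) (h : Lb g w) : Lb g w' :=
  (h2.symm.trans h).trans (h1.add_right 1)

theorem lb_dvd {g δ : ℕ} (hg : g ∣ δ) {w : List ℕ} (h : Lb δ w) : Lb g w := Nat.ModEq.of_dvd hg h

theorem pn4 (dgr : DgrStmt) (oxv : OxvStmt) (lbw : LbwStmt) (eav : EavStmt) (abv : AbvStmt)
    (eam : EamStmt) (exs : ExsStmt) (exl : ExlStmt) (exo : ExoStmt) (dmi : DmiStmt)
    (skk : SkkStmt) (ei4 : Ei4Stmt) (nth : NthStmt) : Pn4Stmt := by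
  intro n β hM hG hE hIt q r hqr hcop
  by_contra hno
  rw [not_or] at hno
  obtain ⟨hnD, hnE⟩ := hno
  have hn := hG.pos
  have hr1 : 1 ≤ r := by
    rcases Nat.eq_zero_or_pos r with h | h
    · rw [h, mul_zero] at hqr
      omega
    · exact h
  obtain ⟨δ, hD⟩ := dgr n β hn hIt
  have hgδ : Nat.gcd r δ ∣ δ := Nat.gcd_dvd_right r δ
  have hgr : Nat.gcd r δ ∣ r := Nat.gcd_dvd_left r δ
  generalize hgg : Nat.gcd r δ = g at hgδ hgr
  have hgn : g ∣ n := hgδ.trans hD.dv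
  -- `δ` does not divide `r`
  have hδr : ¬ δ ∣ r := fun h => hnD ((hD.iff r).2 h)
  have hδqr : δ ∣ q * r := by
    rw [hqr]
    exact hD.dv
  have hncop : ¬ Nat.Coprime δ q := fun h => hδr (h.dvd_of_dvd_mul_left hδqr)
  have cop1 : ∀ z : ℕ, q * z ≡ 1 [MOD δ] → False := by
    intro z hz
    apply hncop
    have h1 : Nat.gcd δ q ∣ δ := Nat.gcd_dvd_left δ q
    have h2 : Nat.gcd δ q ∣ q * z := (Nat.gcd_dvd_right δ q).mul_right z
    have h3 : q * z ≡ 1 [MOD Nat.gcd δ q] := Nat.ModEq.of_dvd h1 hz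
    have h4 : q * z ≡ 0 [MOD Nat.gcd δ q] := (Nat.modEq_zero_iff_dvd).2 h2
    have h5 : 1 ≡ 0 [MOD Nat.gcd δ q] := h3.symm.trans h4
    exact Nat.dvd_one.1 ((Nat.modEq_zero_iff_dvd).1 h5)
  have cop2 : ∀ z : ℕ, 1 + q * z ≡ 0 [MOD δ] → False := by
    intro z hz
    apply hncop
    have h1 : Nat.gcd δ q ∣ δ := Nat.gcd_dvd_left δ q
    have h2 : Nat.gcd δ q ∣ q * z := (Nat.gcd_dvd_right δ q).mul_right z
    have h3 : Nat.gcd δ q ∣ 1 + q * z := h1.trans ((Nat.modEq_zero_iff_dvd).1 hz)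
    exact Nat.dvd_one.1 ((Nat.dvd_add_left h2).1 h3)
  -- what `β` keeps
  have keepQ : ∀ w w', RR β w w' → KK w → (F1 n (RR β) ∨ Ab w) → (F1 n (RR β) ∨ Ab w') := by
    intro w w' h hk hq
    by_cases hF : F1 n (RR β)
    · exact Or.inl hF
    · exact Or.inr (abv n β hG hE hF w w' h hk (hq.resolve_left hF))
  have keepL : ∀ w w', RR β w w' → KK w → nn w 0 1 ≡ nn w' 0 1 [MOD δ] ∧
      nn w 0 2 ≡ nn w' 0 2 [MOD δ] := by
    intro w w' h hk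
    exact ⟨lbw n β δ hG hE hIt hD w w' h 0 1 3 hk.s3 hk.a2 hk.a3 hk.x2 hk.x3,
      lbw n β δ hG hE hIt hD w w' h 0 2 3 hk.s3 hk.b2 hk.b3 hk.x2 hk.x3⟩
  let Kb : List ℕ → Prop := fun w => KK w ∧ (F1 n (RR β) ∨ Ab w) ∧ Lb g w ∧ nn w 1 2 = 1
  let Kc : List ℕ → Prop := fun w => KK w ∧ (F1 n (RR β) ∨ Ab w) ∧ Lb δ w
  have hb : β ≤ gaml Kb := by
    apply MWF.le_gaml
    rintro u v huv ⟨hk, hq, hl, ho⟩
    have hk' : KK v := (oxv n β hG hE u v huv).1.kk hk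
    have hq' := keepQ u v huv hk hq
    obtain ⟨l1, l2⟩ := keepL u v huv hk
    refine ⟨hk', hq', lb_mono (Nat.ModEq.of_dvd hgδ l1) (Nat.ModEq.of_dvd hgδ l2) hl, ?_⟩
    by_contra ho'
    have h12 : 1 ∈ pre u 2 := List.count_pos_iff.1 (by
      have : nn u 1 2 = (pre u 2).count 1 := rfl
      omega)
    have hle : nn u 0 1 ≤ nn u 0 2 := MWK.count_pre_mono h12 0
    obtain ⟨c, hc⟩ : ∃ c, nn u 0 2 = nn u 0 1 + c := ⟨nn u 0 2 - nn u 0 1, by omega⟩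
    have hcg : c ≡ 1 [MOD g] := by
      have h1 : nn u 0 1 + c ≡ nn u 0 1 + 1 [MOD g] := by
        rw [← hc]
        exact hl
      exact Nat.ModEq.add_left_cancel' _ h1
    have hQ : F1 n (RR β) ∨ (Ab u ∧ Ab v) := by
      by_cases hF : F1 n (RR β)
      · exact Or.inl hF
      · exact Or.inr ⟨hq.resolve_left hF, hq'.resolve_left hF⟩
    have hEa := eav n β δ hG hIt hD u v huv hk hk' hQ ho ho' c (by rw [hc])
    obtain ⟨k, hk1, hkq⟩ := nth n q r δ c hn hqr hcop hD.dv (by rw [hgg]; exact hcg)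
    have h3 := (eam n β hn hIt c hEa).1 k hk1
    exact hnE ((eam n β hn hIt (k * c) h3).2 δ hD q hkq)
  have hc : β ≤ gaml Kc := by
    apply MWF.le_gaml
    rintro u v huv ⟨hk, hq, hl⟩
    obtain ⟨l1, l2⟩ := keepL u v huv hk
    exact ⟨(oxv n β hG hE u v huv).1.kk hk, keepQ u v huv hk hq, lb_mono l1 l2 hl⟩
  -- exchanges
  have exK : ∀ (c : ℕ) (f : ℕ → List ℕ) (p q' w w' : List ℕ),
      Ex n c p (f 0) (f 1) (f 2) (f 3) (f 4) (f 5 ++ (f 1 ++ q')) w w' →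
        (KK w ↔ KK w') ∧ (KK w → (Ab w ↔ Ab w') ∧ nn w 0 1 ≡ nn w' 0 1 [MOD n] ∧
          nn w 0 2 ≡ nn w' 0 2 [MOD n]) := by
    intro c f p q' w w' hx
    obtain ⟨hox, hob, -⟩ := exs n c p _ _ _ _ _ _ w w' hn hx
    have hgd : Gd (f 1) (f 4) (f 5 ++ (f 1 ++ q')) w := Or.inr ⟨f 5, q', rfl⟩
    refine ⟨⟨hox.kk, hox.symm.kk⟩, fun hk => ⟨hob.ab hk, ?_, ?_⟩⟩
    · exact exl n c p _ _ _ _ _ _ w w' hn hx hgd 0 1 3 hk.s3 (by omega) (by omega) hk.a3 hk.x3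
    · exact exl n c p _ _ _ _ _ _ w w' hn hx hgd 0 2 3 hk.s3 (by omega) (by omega) hk.b3 hk.x3
  have exC : ∀ (c : ℕ) (f : ℕ → List ℕ) (p q' w w' : List ℕ),
      Ex n c p (f 0) (f 1) (f 2) (f 3) (f 4) (f 5 ++ (f 1 ++ q')) w w' → (Kc w ↔ Kc w') := by
    intro c f p q' w w' hx
    obtain ⟨h1, h2⟩ := exK c f p q' w w' hx
    constructor
    · rintro ⟨hk, hq, hl⟩
      obtain ⟨a, l1, l2⟩ := h2 hk
      exact ⟨h1.1 hk, hq.imp id a.1,
        lb_mono (Nat.ModEq.of_dvd hD.dv l1) (Nat.ModEq.of_dvd hD.dv l2) hl⟩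
    · rintro ⟨hk, hq, hl⟩
      obtain ⟨a, l1, l2⟩ := h2 (h1.2 hk)
      exact ⟨h1.2 hk, hq.imp id a.2,
        lb_mono (Nat.ModEq.of_dvd hD.dv l1).symm (Nat.ModEq.of_dvd hD.dv l2).symm hl⟩
  -- (σ)
  have hσ : Dm n r (RR (gaml Kb)) := by
    apply MWF.RR_gaml
    intro f p q'
    rw [flat_dl, flat_dr]
    obtain ⟨hox, hob, hord, hlab⟩ := dmi n r p (f 0) (f 1) (f 2) q' _ _ hn rfl rfl
    constructor
    · rintro ⟨hk, hq, hl, ho⟩
      refine ⟨hox.kk hk, hq.imp id (hob.ab hk).1,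
        lb_mono (hlab g hgr 0 1) (hlab g hgr 0 2) hl, ?_⟩
      rw [← hord 1 2 3 hk.s3 (by omega) (by omega) hk.a3 hk.b3]
      exact ho
    · rintro ⟨hk', hq, hl, ho⟩
      have hk := hox.symm.kk hk'
      refine ⟨hk, hq.imp id (hob.ab hk).2,
        lb_mono (hlab g hgr 0 1).symm (hlab g hgr 0 2).symm hl, ?_⟩
      rw [hord 1 2 3 hk.s3 (by omega) (by omega) hk.a3 hk.b3]
      exact ho
  -- (τ)
  have hτ : Ea n 1 (RR (gaml Kc)) := by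
    apply MWF.RR_gaml
    intro f p q'
    exact exC 1 f p q' _ _ (ex_ea n 1 f p q')
  -- (ρ)
  have hρ1 : Ea n q (RR (gaml Kc)) := by
    apply MWF.RR_gaml
    intro f p q'
    exact exC q f p q' _ _ (ex_ea n q f p q')
  have hρ2 : Ea n q (RR (gaml (fun w => Kb w ∧ Kc w))) := by
    apply MWF.RR_gaml
    intro f p q'
    have hx := ex_ea n q f p q'
    generalize hw : p ++ (X n ++ 1 :: (X (n + q) ++ 2 :: (X n ++ [3, 1, 4, 2, 5, 1]))).flatMap f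
      ++ q' = w at hx
    generalize hw' : p ++ (X (n + q) ++ 2 :: (X (n + (n - 1) * q) ++
      1 :: (X (n + q) ++ [3, 1, 4, 2, 5, 1]))).flatMap f ++ q' = w' at hx
    show (Kb w ∧ Kc w) ↔ (Kb w' ∧ Kc w')
    have hC := exC q f p q' w w' hx
    obtain ⟨h1, h2⟩ := exK q f p q' w w' hx
    obtain ⟨-, hxo⟩ := exs n q p _ _ _ _ _ _ w w' hn hx
    have hord : KK w → Lb δ w → Lb δ w' → (nn w 1 2 = 1 ↔ nn w' 1 2 = 1) := by
      intro hk hl hl'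
      obtain ⟨o1, o2⟩ := exo n q p _ _ _ _ _ _ w w' hn hx 1 2 3 hk.s3 (by omega) (by omega)
        hk.a3 hk.b3
      constructor
      · intro ho
        by_contra ho'
        have h5 := (o1 ho ho').2.2.2 0 (by omega) hk.x3
        have h6 := Nat.ModEq.of_dvd hD.dv h5
        have h7 : nn w 0 1 + q * (f 0).count 0 ≡ nn w 0 1 + 1 [MOD δ] := h6.symm.trans hl
        exact cop1 _ (Nat.ModEq.add_left_cancel' _ h7)
      · intro ho
        by_contra ho'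
        have h5 := (o2 ho ho').2.2.2 0 (by omega) hk.x3
        have h6 := Nat.ModEq.of_dvd hD.dv h5
        have h7 : nn w' 0 1 + (1 + q * (f 0).count 0) ≡ nn w' 0 1 + 0 [MOD δ] := by
          have h8 := (hl'.add_right (q * (f 0).count 0)).symm.trans h6
          rw [add_zero, ← add_assoc]
          exact h8
        exact cop2 _ (Nat.ModEq.add_left_cancel' _ h7)
    constructor
    · rintro ⟨⟨hk, hq, hl, ho⟩, hcw⟩
      have hcw' := hC.1 hcw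
      exact ⟨⟨hcw'.1, hcw'.2.1, lb_dvd hgδ hcw'.2.2, (hord hk hcw.2.2 hcw'.2.2).1 ho⟩, hcw'⟩
    · rintro ⟨⟨hk', hq, hl, ho⟩, hcw'⟩
      have hcw := hC.2 hcw'
      exact ⟨⟨hcw.1, hcw.2.1, lb_dvd hgδ hcw.2.2, (hord hcw.1 hcw.2.2 hcw'.2.2).2 ho⟩, hcw⟩
  -- the join
  have leσ : gaml Kb ≤ FIC.sup (FIC.inf (gaml (fun w => Kb w ∧ Kc w)) (gaml Kc)) (gaml Kb) :=
    FIC.le_sup_right _ _
  have leρ : FIC.inf (gaml (fun w => Kb w ∧ Kc w)) (gaml Kc) ≤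
      FIC.sup (FIC.inf (gaml (fun w => Kb w ∧ Kc w)) (gaml Kc)) (gaml Kb) :=
    FIC.le_sup_left _ _
  have hEa : Ea n 1 (RR (FIC.sup (FIC.inf (gaml (fun w => Kb w ∧ Kc w)) (gaml Kc)) (gaml Kb))) := by
    refine ei4 n _ q r hn hr1 hcop ?_ (leσ _ _ hσ) (leρ _ _ ⟨hρ2, hρ1⟩)
    intro p w w' q' x hm
    exact leσ _ _ (hb _ _ (hIt p w w' q' x hm))
  obtain ⟨k1, k2, k3, k4, k5⟩ := skk n δ hn hD.dv _ _ rfl rfl
  have hfin := pen hM Kb Kc hb hc hEa hτ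
    ⟨⟨k1, Or.inr k2, lb_dvd hgδ k4, k3⟩, ⟨k1, Or.inr k2, k4⟩⟩
  have h9 := hfin.1.2.2.2
  rw [k5] at h9
  omega

end Pool.Agent.MWGX.H33
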